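import Pool.Agent.Y205.AV.Three
import Pool.Agent.R66.BX.Freq

set_option autoImplicit false

/-!
# Almost all classes, counted by the numbers of points of each multiplicity

A class up to the order of its multiplicities, all of them at most `M`, is given by its degree `d`
and the numbers `k i` of the points of multiplicity `i + 1`, `i < M`. Among the classes with
`1 ≤ d ≤ D` and all `k i ≤ K`, `K ≥ 1`, at most the proportion
`min (4 * 10 ^ 6 / M) (1200 / √(K + 1))` does not have the expected dimension at general points; and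
for `D ≥ 4 M` at most four times this proportion of those whose degree exceeds the sum of the three
largest multiplicities. So the proportion tends to zero if `M` or `K` tends to infinity, uniformly in
the other parameters. For `K = 1` these are the classes with pairwise different multiplicities.
-/

namespace Pool.Agent.Results.MP_6e81d8_ag.ClassesByFrequencies

open MvPolynomial

/-- The forms of degree `d` vanishing to order at least `w i` at the points `(P i 0 : P i 1 : 1)`. -/
noncomputable def forms {n : ℕ} (P : Fin n → Fin 2 → ℂ) (d : ℕ) (w : Fin n → ℕ) :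
    Submodule ℂ (MvPolynomial (Fin 3) ℂ) :=
  homogeneousSubmodule (Fin 3) ℂ d ⊓
    Submodule.restrictScalars ℂ
      (⨅ i : Fin n, (Ideal.span {X 0 - C (P i 0) * X 2, X 1 - C (P i 1) * X 2} :
        Ideal (MvPolynomial (Fin 3) ℂ)) ^ (w i))

/-- The projective dimension of the linear system of the class `(d; w)`. -/
noncomputable def dimension {n : ℕ} (P : Fin n → Fin 2 → ℂ) (d : ℕ) (w : Fin n → ℕ) : ℤ :=
  (Module.finrank ℂ ↥(forms P d w) : ℤ) - 1

/-- The virtual dimension. -/
def vdim {n : ℕ} (d : ℕ) (w : Fin n → ℕ) : ℤ :=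
  ((d + 2).choose 2 : ℤ) - 1 - ∑ i, ((w i + 1).choose 2 : ℤ)

/-- The property holds for all `n`-tuples of points outside some hypersurface. -/
def ForGeneral {n : ℕ} (p : (Fin n → Fin 2 → ℂ) → Prop) : Prop :=
  ∃ F : MvPolynomial (Fin n × Fin 2) ℂ, F ≠ 0 ∧ ∀ P : Fin n → Fin 2 → ℂ,
    eval (fun ij : Fin n × Fin 2 => P ij.1 ij.2) F ≠ 0 → p P

/-- The vector `w` has exactly `k i` entries `i + 1`, `i < M`, and no other entries. -/
def Realizes {M n : ℕ} (k : Fin M → ℕ) (w : Fin n → ℕ) : Prop :=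
  (∀ i : Fin M, (Finset.univ.filter fun j => w j = (i : ℕ) + 1).card = k i) ∧
    ∀ j, 1 ≤ w j ∧ w j ≤ M

/-- The class of degree `d` with `k i` points of multiplicity `i + 1` has the expected dimension at
general points. -/
def Expected {M : ℕ} (d : ℕ) (k : Fin M → ℕ) : Prop :=
  ∀ (n : ℕ) (w : Fin n → ℕ), Realizes k w →
    ForGeneral fun P => dimension P d w = max (vdim d w) (-1)

/-- The degree exceeds the sum of the (at most) three largest multiplicities. -/
def DegreeLarge {M : ℕ} (d : ℕ) (k : Fin M → ℕ) : Prop :=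
  ∀ (n : ℕ) (w : Fin n → ℕ), Realizes k w → ∀ T : Finset (Fin n), T.card ≤ 3 → ∑ j ∈ T, w j < d

/-- The classes with `1 ≤ d ≤ D` and at most `K` points of each multiplicity `1, …, M`. -/
def box (M K D : ℕ) : Set (ℕ × (Fin M → ℕ)) := {x | 1 ≤ x.1 ∧ x.1 ≤ D ∧ ∀ i, x.2 i ≤ K}

theorem sum_realizes {M n : ℕ} {k : Fin M → ℕ} {w : Fin n → ℕ} (h : Realizes k w) (g : ℕ → ℤ) :
    ∑ j, g (w j) = ∑ i : Fin M, (k i : ℤ) * g ((i : ℕ) + 1) := by
  classical
  have h1 : ∀ j, g (w j) = ∑ i : Fin M, if w j = (i : ℕ) + 1 then g ((i : ℕ) + 1) else 0 := by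
    intro j
    obtain ⟨h2, h3⟩ := h.2 j
    rw [Finset.sum_eq_single (⟨w j - 1, by omega⟩ : Fin M)]
    · have e : w j - 1 + 1 = w j := by omega
      simp only [e, if_true]
    · intro i _ hi
      rw [if_neg]
      intro h4
      apply hi
      apply Fin.ext
      simp only
      omega
    · intro h4
      exact absurd (Finset.mem_univ _) h4
  rw [Finset.sum_congr rfl fun j _ => h1 j, Finset.sum_comm]
  refine Finset.sum_congr rfl fun i _ => ?_
  rw [← Finset.sum_filter, Finset.sum_const, h.1 i, nsmul_eq_mul]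

theorem box_card (M K D : ℕ) : (Set.ncard (box M K D) : ℝ) = D * ((K : ℝ) + 1) ^ M := by
  have h : box M K D = Pool.Agent.R66.BX.fbox M K D := rfl
  rw [h, Pool.Agent.R66.BX.fbox_finset, Set.ncard_coe_finset, Finset.card_product,
    Fintype.card_piFinset]
  simp

/-- The window outside of which the classes have the expected dimension. -/
theorem window {M d : ℕ} {k : Fin M → ℕ} (h : ¬ Expected d k) :
    ∑ i : Fin M, (((i : ℕ) : ℤ) + 1) * (k i : ℤ) +
        4 * |((d + 2).choose 2 : ℤ) - (Pool.Agent.R66.BX.af k : ℤ)| <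
      25000 * ((M : ℤ) + 1) ^ 2 := by
  unfold Expected at h
  push Not at h
  obtain ⟨n, w, hw, hs⟩ := h
  by_contra hcon
  push Not at hcon
  apply hs
  have e1 : ∑ j, (w j : ℤ) = ∑ i : Fin M, (((i : ℕ) : ℤ) + 1) * (k i : ℤ) := by
    rw [sum_realizes hw (fun a => (a : ℤ))]
    refine Finset.sum_congr rfl fun i _ => ?_
    push_cast
    ring
  have e2 : ∑ j, ((w j + 1).choose 2 : ℤ) = (Pool.Agent.R66.BX.af k : ℤ) := by
    rw [sum_realizes hw (fun a => ((a + 1).choose 2 : ℤ))]
    unfold Pool.Agent.R66.BX.af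
    push_cast
    rfl
  obtain ⟨F, hF, hF'⟩ := Pool.Agent.Y205.AV.big_vectors w
  refine ⟨F.map (algebraMap ℚ ℂ), Pool.Agent.H932R3.map_ne_zero_of hF, fun P hP => ?_⟩
  rw [MvPolynomial.eval_map] at hP
  have h1 := hF' P hP d M (fun j => (hw.2 j).2) (by
    left
    have h2 := Pool.Agent.Y205.AV.gap_eq w d
    rw [e2] at h2
    rw [← e1] at hcon
    have h3 : ((25000 * (M + 1) ^ 2 : ℕ) : ℤ) ≤
        ((∑ j, w j + 2 * Pool.Agent.Y205.AV.gap w d : ℕ) : ℤ) := by
      push_cast
      rw [h2]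
      linarith
    exact_mod_cast h3)
  unfold Pool.Agent.H932R3.ExpDim at h1
  unfold dimension forms vdim
  rw [h1]
  have e : ∑ i, ((w i + 1).choose 2 : ℤ) = ((∑ i, (w i + 1).choose 2 : ℕ) : ℤ) := by
    push_cast
    rfl
  rw [e]
  omega

theorem large_count {M K D : ℕ} (hD : 4 * M ≤ D) :
    (D : ℝ) * ((K : ℝ) + 1) ^ M ≤
      4 * (Set.ncard {x ∈ box M K D | DegreeLarge x.1 x.2} : ℝ) := by
  classical
  have hset : {x ∈ box M K D | DegreeLarge x.1 x.2} =
      ↑(((Finset.Icc 1 D) ×ˢ Fintype.piFinset (fun _ : Fin M => Finset.range (K + 1))).filter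
        fun x => DegreeLarge x.1 x.2) := by
    have h : box M K D = Pool.Agent.R66.BX.fbox M K D := rfl
    rw [h, Pool.Agent.R66.BX.fbox_finset]
    ext x
    simp
  rw [hset, Set.ncard_coe_finset]
  have hsub : (Finset.Icc (3 * M + 1) D) ×ˢ
      Fintype.piFinset (fun _ : Fin M => Finset.range (K + 1)) ⊆
      ((Finset.Icc 1 D) ×ˢ Fintype.piFinset (fun _ : Fin M => Finset.range (K + 1))).filter
        fun x => DegreeLarge x.1 x.2 := by
    intro x hx
    rw [Finset.mem_product, Finset.mem_Icc] at hx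
    rw [Finset.mem_filter, Finset.mem_product, Finset.mem_Icc]
    refine ⟨⟨⟨by omega, hx.1.2⟩, hx.2⟩, fun n w hw T hT => ?_⟩
    calc ∑ j ∈ T, w j ≤ ∑ _j ∈ T, M := Finset.sum_le_sum fun j _ => (hw.2 j).2
      _ = T.card * M := by rw [Finset.sum_const, smul_eq_mul]
      _ ≤ 3 * M := Nat.mul_le_mul_right _ hT
      _ < x.1 := by omega
  have h1 := Finset.card_le_card hsub
  rw [Finset.card_product, Nat.card_Icc, Fintype.card_piFinset] at h1
  simp only [Finset.card_range, Finset.prod_const, Finset.card_univ, Fintype.card_fin] at h1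
  have h2 : D ≤ 4 * (D + 1 - (3 * M + 1)) := by omega
  have h3 : D * (K + 1) ^ M ≤
      4 * (((Finset.Icc 1 D) ×ˢ Fintype.piFinset (fun _ : Fin M => Finset.range (K + 1))).filter
        fun x => DegreeLarge x.1 x.2).card := by
    calc D * (K + 1) ^ M ≤ (4 * (D + 1 - (3 * M + 1))) * (K + 1) ^ M := Nat.mul_le_mul_right _ h2
      _ = 4 * ((D + 1 - (3 * M + 1)) * (K + 1) ^ M) := by ring
      _ ≤ _ := Nat.mul_le_mul_left _ h1
  exact_mod_cast h3

/-- **Main result.** -/
theorem result (M K D : ℕ) (hM : 1 ≤ M) (hK : 1 ≤ K) :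
    (Set.ncard {x ∈ box M K D | ¬ Expected x.1 x.2} : ℝ) ≤
        min (4 * 10 ^ 6 / (M : ℝ)) (1200 / Real.sqrt ((K : ℝ) + 1)) *
          (Set.ncard (box M K D) : ℝ) ∧
      (4 * M ≤ D →
        (Set.ncard {x ∈ box M K D | DegreeLarge x.1 x.2 ∧ ¬ Expected x.1 x.2} : ℝ) ≤
          4 * min (4 * 10 ^ 6 / (M : ℝ)) (1200 / Real.sqrt ((K : ℝ) + 1)) *
            (Set.ncard {x ∈ box M K D | DegreeLarge x.1 x.2} : ℝ)) := by
  have hs : 0 < Real.sqrt ((K : ℝ) + 1) := Real.sqrt_pos.2 (by positivity)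
  have hMR : (0 : ℝ) < M := by
    have : 0 < M := hM
    exact_mod_cast this
  have h1 := Pool.Agent.R66.BX.fcount_M (D := D) hM hK (fun d k => ¬ Expected d k)
    (fun k _ d _ _ h => window h)
  have h2 := Pool.Agent.R66.BX.fcount_K (K := K) (D := D) hM (fun d k => ¬ Expected d k)
    (fun k _ d _ _ h => window h)
  have hmain : (Set.ncard {x ∈ box M K D | ¬ Expected x.1 x.2} : ℝ) ≤
      min (4 * 10 ^ 6 / (M : ℝ)) (1200 / Real.sqrt ((K : ℝ) + 1)) *
        (D * ((K : ℝ) + 1) ^ M) := by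
    have h3 : (0 : ℝ) ≤ D * ((K : ℝ) + 1) ^ M := by positivity
    rcases le_total (4 * 10 ^ 6 / (M : ℝ)) (1200 / Real.sqrt ((K : ℝ) + 1)) with h | h
    · rw [min_eq_left h]
      exact h1
    · rw [min_eq_right h]
      exact h2
  refine ⟨?_, fun hD => ?_⟩
  · rw [box_card]
    exact hmain
  · have hsub : (Set.ncard {x ∈ box M K D | DegreeLarge x.1 x.2 ∧ ¬ Expected x.1 x.2} : ℝ) ≤
        (Set.ncard {x ∈ box M K D | ¬ Expected x.1 x.2} : ℝ) := by
      have hfin : (box M K D).Finite := by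
        have h : box M K D = Pool.Agent.R66.BX.fbox M K D := rfl
        rw [h, Pool.Agent.R66.BX.fbox_finset]
        exact Finset.finite_toSet _
      have : {x ∈ box M K D | DegreeLarge x.1 x.2 ∧ ¬ Expected x.1 x.2} ⊆
          {x ∈ box M K D | ¬ Expected x.1 x.2} := fun x hx => ⟨hx.1, hx.2.2⟩
      exact_mod_cast Set.ncard_le_ncard this (hfin.subset fun x hx => hx.1)
    have h4 := large_count (K := K) hD
    have h5 : 0 ≤ min (4 * 10 ^ 6 / (M : ℝ)) (1200 / Real.sqrt ((K : ℝ) + 1)) :=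
      le_min (by positivity) (by positivity)
    have h6 := mul_le_mul_of_nonneg_left h4 h5
    linarith

end Pool.Agent.Results.MP_6e81d8_ag.ClassesByFrequencies
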