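import Mathlib
import Pool.Agent.R355.GenB
import Pool.Agent.TH167.SH.Defs

set_option autoImplicit false

/-!
# The SHGH conjecture in a fixed arithmetic genus is a finite problem

Let `D = (d; m 1, …, m n)` be a class on the blow-up of the complex projective plane at `n` general
points which is standard: the sum of any three multiplicities is at most `d` (Q1 is about the standard
classes with a strict inequality; the classes with at most two positive multiplicities are
elementary). Let `p_a (D)` be the arithmetic genus.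

* For every `g ≥ 2` the standard classes with `p_a (D) = g` and `vdim (D) = -1` are, for all numbers
  of points together and up to zero multiplicities, finite in number: `2 d ≤ 3 g ^ 2 + 25 g` and at
  most `3 g + 7` multiplicities are positive.
* For every `g`, `dim (D) = edim (D)` for ALL standard classes of arithmetic genus `g` with
  `vdim (D) ≥ -1` (there are infinitely many, for all numbers of points) if and only if these finitely
  many classes are empty. This is the case for `g ≤ 1`.
* The standard classes with `vdim (D) ≤ -1` have `K D ≥ 1`; for every `c ≥ 1` those with `K D = c` are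
  finite in number (with the same bounds), but for the classes
  `(3 m; m, m, m, m, m, m, m, m, m, …)`, which are empty. All standard classes with at least three
  positive multiplicities are nonspecial if and only if for every `c ≥ 2` these finitely many classes
  are empty.

The proof: a class of dimension larger than `vdim = x - 1 ≥ 0` remains nonempty after `x` general
simple points are added, which does not change the arithmetic genus; in the standard chamber `D ^ 2`
is bounded from below in terms of the degree on `-K_9` of the first nine points.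
-/

namespace Pool.Agent.Results.MP_6e81d8_ag.FixedGenusIsFinite

open MvPolynomial Pool.Agent.TH167.SHDefs

/-- The property holds for all `n`-tuples of points outside some hypersurface. -/
def ForGeneral {n : ℕ} (p : (Fin n → Fin 2 → ℂ) → Prop) : Prop :=
  ∃ F : MvPolynomial (Fin n × Fin 2) ℂ, F ≠ 0 ∧ ∀ P : Fin n → Fin 2 → ℂ,
    eval (fun ij : Fin n × Fin 2 => P ij.1 ij.2) F ≠ 0 → p P

/-- `dim (D) = edim (D)` at general points. -/
def Nonspecial {n : ℕ} (d : ℕ) (w : Fin n → ℕ) : Prop :=
  ForGeneral fun P => dimL P d w = max (virtdim d w) (-1)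

/-- The linear system is empty at general points. -/
def Empty {n : ℕ} (d : ℕ) (w : Fin n → ℕ) : Prop := ForGeneral fun P => dimL P d w = -1

/-- The class `(d; w)` is standard. -/
def Standard {n : ℕ} (d : ℕ) (w : Fin n → ℕ) : Prop :=
  ∀ i j l : Fin n, i ≠ j → i ≠ l → j ≠ l → w i + w j + w l ≤ d

/-- At least three multiplicities are positive. -/
def ThreePos {n : ℕ} (w : Fin n → ℕ) : Prop :=
  ∃ a b c : Fin n, a ≠ b ∧ a ≠ c ∧ b ≠ c ∧ 1 ≤ w a ∧ 1 ≤ w b ∧ 1 ≤ w c

/-- The arithmetic genus is `g`: `D ^ 2 + K D = 2 g - 2`. -/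
def Genus {n : ℕ} (g : ℤ) (d : ℕ) (w : Fin n → ℕ) : Prop :=
  inter d w d w + interK d w = 2 * g - 2

/-- The number of positive multiplicities. -/
def positive {n : ℕ} (w : Fin n → ℕ) : ℕ := (Finset.univ.filter fun j => w j ≠ 0).card

open Pool.Agent.TH167.SH Pool.Agent.R355.Gen in
theorem key {n : ℕ} (d : ℕ) (w : Fin n → ℕ) (k : ℤ) :
    (ForGeneral fun P => dimL P d w = k - 1) ↔
      ∀ P : Fin n → Fin 2 → ℂ, AlgebraicIndependent ℚ (fun ij : Fin n × Fin 2 => P ij.1 ij.2) →
        (Module.finrank ℂ ↥(sys P d w) : ℤ) = k := by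
  rw [← gen_iff d w k]
  have h : ∀ P : Fin n → Fin 2 → ℂ, dimL P d w = k - 1 ↔
      (Module.finrank ℂ ↥(sys P d w) : ℤ) = k := by
    intro P
    unfold dimL
    omega
  constructor
  · rintro ⟨F, hF, h1⟩
    exact ⟨F, hF, fun P hP => (h P).1 (h1 P hP)⟩
  · rintro ⟨F, hF, h1⟩
    exact ⟨F, hF, fun P hP => (h P).2 (h1 P hP)⟩

open Pool.Agent.TH167.SH in
theorem nonspecial_iff {n : ℕ} (d : ℕ) (w : Fin n → ℕ) :
    Nonspecial d w ↔ ∀ P : Fin n → Fin 2 → ℂ,
      AlgebraicIndependent ℚ (fun ij : Fin n × Fin 2 => P ij.1 ij.2) →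
        (Module.finrank ℂ ↥(sys P d w) : ℤ) = max 0 (chi d w) := by
  rw [← key]
  unfold Nonspecial
  have : max (virtdim d w) (-1) = max 0 (chi d w) - 1 := by
    rw [virtdim_eq]
    omega
  rw [this]

theorem empty_iff {n : ℕ} (d : ℕ) (w : Fin n → ℕ) :
    Empty d w ↔ ∀ P : Fin n → Fin 2 → ℂ,
      AlgebraicIndependent ℚ (fun ij : Fin n × Fin 2 => P ij.1 ij.2) →
        (Module.finrank ℂ ↥(sys P d w) : ℤ) = 0 := by
  rw [← key]
  exact Iff.rfl

open Pool.Agent.TH167.SH in
theorem genus_kk {n : ℕ} {g : ℤ} {d : ℕ} {w : Fin n → ℕ} (h : Genus g d w) :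
    -kk d w + chi d w = g := by
  unfold Genus at h
  rw [interK_eq, inter_eq] at h
  have := two_chi d w
  omega

open Pool.Agent.TH167.SH Pool.Agent.R355.Gen in
theorem result :
    -- (1) finiteness in a given genus
    (∀ g : ℤ, 2 ≤ g → ∀ n : ℕ, 4 ≤ n → ∀ (d : ℕ) (w : Fin n → ℕ), Standard d w → Genus g d w →
      virtdim d w = -1 → 2 * (d : ℤ) ≤ 3 * g ^ 2 + 25 * g ∧ (positive w : ℤ) ≤ 3 * g + 7) ∧
    -- (2) the equivalence in a given genus
    (∀ g : ℤ,
      (∀ n : ℕ, 4 ≤ n → ∀ (d : ℕ) (w : Fin n → ℕ), Standard d w → ThreePos w → Genus g d w →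
        -1 ≤ virtdim d w → Nonspecial d w) ↔
      (∀ n : ℕ, 4 ≤ n → ∀ (d : ℕ) (w : Fin n → ℕ), Standard d w → ThreePos w → Genus g d w →
        virtdim d w = -1 → Empty d w)) ∧
    -- (3) genus at most one
    (∀ n : ℕ, 4 ≤ n → ∀ (d : ℕ) (w : Fin n → ℕ), Standard d w → ThreePos w → ∀ g : ℤ, g ≤ 1 →
      Genus g d w → -1 ≤ virtdim d w → Nonspecial d w) ∧
    -- (4) finiteness for a given canonical degree
    (∀ n : ℕ, 4 ≤ n → ∀ (d : ℕ) (w : Fin n → ℕ), Standard d w → virtdim d w ≤ -1 →
      1 ≤ interK d w ∧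
      ((2 * (d : ℤ) ≤ 3 * interK d w ^ 2 + 25 * interK d w ∧
          (positive w : ℤ) ≤ 3 * interK d w + 7) ∨
        (∃ (T : Finset (Fin n)) (m : ℕ), T.card = 9 ∧ d = 3 * m ∧ ∀ i ∈ T, w i = m) ∧
          Empty d w)) ∧
    -- (5) the equivalence for all standard classes
    ((∀ n : ℕ, 4 ≤ n → ∀ (d : ℕ) (w : Fin n → ℕ), Standard d w → ThreePos w → Nonspecial d w) ↔
      ∀ c : ℤ, 2 ≤ c → ∀ n : ℕ, 4 ≤ n → ∀ (d : ℕ) (w : Fin n → ℕ), Standard d w →
        interK d w = c → virtdim d w ≤ -1 → 2 * (d : ℤ) ≤ 3 * c ^ 2 + 25 * c →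
          (positive w : ℤ) ≤ 3 * c + 7 → Empty d w) := by
  have hfam : ∀ {r : ℕ} {d : ℕ} {w : Fin (r + 4) → ℕ} {T : Finset (Fin (r + 4))} {m : ℕ},
      T.card = 9 → d = 3 * m → (∀ i ∈ T, w i = m) → kk d w < 0 → Empty d w := by
    intro r d w T m hT hd hw hk
    rw [empty_iff]
    intro P hP
    rw [family_empty hP hT hd hw hk, finrank_bot]
    rfl
  -- the equivalence in a given genus
  have h2 : ∀ g : ℤ,
      (∀ n : ℕ, 4 ≤ n → ∀ (d : ℕ) (w : Fin n → ℕ), Standard d w → ThreePos w → Genus g d w →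
        virtdim d w = -1 → Empty d w) →
      (∀ n : ℕ, 4 ≤ n → ∀ (d : ℕ) (w : Fin n → ℕ), Standard d w → ThreePos w → Genus g d w →
        -1 ≤ virtdim d w → Nonspecial d w) := by
    intro g h n hn d w hs h3 hg hv
    rw [nonspecial_iff]
    intro P hP
    have hv' : 0 ≤ chi d w := by
      rw [virtdim_eq] at hv
      omega
    rw [max_eq_right hv']
    obtain ⟨x, hx⟩ : ∃ x : ℕ, chi d w = x := ⟨(chi d w).toNat, by omega⟩
    rw [hx]
    refine chi_pos_case hx (fun Q hQ => ?_) hP
    have hs' : Standard d (ext x w) := reduced_ext hs h3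
    have hc := chi_ext x d w
    have hk := kk_ext x d w
    have e1 := genus_kk hg
    have e2 := two_chi d (ext x w)
    refine (empty_iff d (ext x w)).1 (h (n + x) (by omega) d (ext x w) hs' ?_ ?_ ?_) Q hQ
    · obtain ⟨a, b, c, hab, hac, hbc, ha, hb, hc⟩ := h3
      refine ⟨Fin.castAdd x a, Fin.castAdd x b, Fin.castAdd x c, ?_, ?_, ?_, ?_, ?_, ?_⟩
      · exact fun h0 => hab (Fin.castAdd_injective _ _ h0)
      · exact fun h0 => hac (Fin.castAdd_injective _ _ h0)
      · exact fun h0 => hbc (Fin.castAdd_injective _ _ h0)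
      · rw [ext_left]
        exact ha
      · rw [ext_left]
        exact hb
      · rw [ext_left]
        exact hc
    · unfold Genus
      rw [interK_eq, inter_eq]
      omega
    · rw [virtdim_eq]
      omega
  have h4 : ∀ n : ℕ, 4 ≤ n → ∀ (d : ℕ) (w : Fin n → ℕ), Standard d w → virtdim d w ≤ -1 →
      1 ≤ interK d w ∧
      ((2 * (d : ℤ) ≤ 3 * interK d w ^ 2 + 25 * interK d w ∧
          (positive w : ℤ) ≤ 3 * interK d w + 7) ∨
        (∃ (T : Finset (Fin n)) (m : ℕ), T.card = 9 ∧ d = 3 * m ∧ ∀ i ∈ T, w i = m) ∧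
          Empty d w) := by
    intro n hn d w hs hv
    obtain ⟨r, rfl⟩ : ∃ r, n = r + 4 := ⟨n - 4, by omega⟩
    have hχ : chi d w ≤ 0 := by
      rw [virtdim_eq] at hv
      omega
    have hk := kk_neg hs hχ
    have hK := interK_eq d w
    refine ⟨by omega, ?_⟩
    rcases level_finite hs (c := interK d w) (by omega) (by omega) hχ with ⟨-, a1, a2⟩ |
      ⟨T, m, b1, b2, b3⟩
    · exact Or.inl ⟨a1, a2⟩
    · exact Or.inr ⟨⟨T, m, b1, b2, b3⟩, hfam b1 b2 b3 hk⟩
  refine ⟨fun g hg n hn d w hs hgen hv => ?_, fun g => ⟨fun h n hn d w hs h3 hgen hv => ?_, h2 g⟩,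
    fun n hn d w hs h3 g hg hgen hv => ?_, h4, ⟨fun h c hc n hn d w hs hK hv _ _ => ?_,
      fun h n hn d w hs h3 => ?_⟩⟩
  · -- (1)
    obtain ⟨r, rfl⟩ : ∃ r, n = r + 4 := ⟨n - 4, by omega⟩
    have hχ : chi d w = 0 := by
      rw [virtdim_eq] at hv
      omega
    have e1 := genus_kk hgen
    rcases level_finite hs (c := g) (by omega) (by omega) hχ.le with ⟨-, a1, a2⟩ |
      ⟨T, m, b1, b2, b3⟩
    · exact ⟨a1, a2⟩
    · exfalso
      have e2 := two_chi d w
      have e3 : 0 ≤ ip d w d w := by omega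
      have e4 := Finset.sum_add_sum_compl T fun i => (w i : ℤ) * w i
      have e5 : ∑ i ∈ T, (w i : ℤ) * w i = 9 * ((m : ℤ) * m) := by
        rw [Finset.sum_congr rfl fun i hi => by rw [b3 i hi], Finset.sum_const, b1]
        norm_num
      have e6 : ∑ i ∈ Tᶜ, (w i : ℤ) * w i ≤ 0 := by
        unfold ip at e3
        rw [b2] at e3
        push_cast at e3
        linarith
      have e7 : ∀ i ∈ Tᶜ, w i = 0 := by
        intro i hi
        have h8 := Finset.single_le_sum (f := fun i => (w i : ℤ) * w i) (s := Tᶜ)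
          (fun j _ => mul_nonneg (Int.natCast_nonneg _) (Int.natCast_nonneg _)) hi
        have h9 : (w i : ℤ) * w i ≤ 0 := h8.trans e6
        have h10 : (0 : ℤ) ≤ w i := Int.natCast_nonneg _
        by_contra h0
        have : (1 : ℤ) ≤ w i := by
          have : 1 ≤ w i := by omega
          exact_mod_cast this
        nlinarith
      have e8 := Finset.sum_add_sum_compl T fun i => (w i : ℤ)
      have e9 : ∑ i ∈ T, (w i : ℤ) = 9 * m := by
        rw [Finset.sum_congr rfl fun i hi => by rw [b3 i hi], Finset.sum_const, b1]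
        norm_num
      have e10 : ∑ i ∈ Tᶜ, (w i : ℤ) = 0 := Finset.sum_eq_zero fun i hi => by
        rw [e7 i hi, Nat.cast_zero]
      have e11 : kk d w = 0 := by
        unfold kk
        rw [b2]
        push_cast
        linarith
      omega
  · -- (2)
    have h5 := (nonspecial_iff d w).1 (h n hn d w hs h3 hgen (by omega))
    rw [empty_iff]
    intro P hP
    rw [h5 P hP, max_eq_left]
    rw [virtdim_eq] at hv
    omega
  · -- (3)
    rcases lt_or_ge g 1 with hg' | hg'
    · exfalso
      have := level_pos hn hs h3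
      have e1 := genus_kk hgen
      unfold level at this
      rw [virtdim_eq] at hv
      rw [max_eq_right (by omega)] at this
      omega
    · have hg1 : g = 1 := by omega
      subst hg1
      refine h2 1 (fun n hn d w hs h3 hgen hv => ?_) n hn d w hs h3 hgen hv
      rw [empty_iff]
      have e1 := genus_kk hgen
      have hχ : chi d w = 0 := by
        rw [virtdim_eq] at hv
        omega
      exact emptyLevel_one n hn d w hs (by omega) hχ.le
  · -- (5), first direction
    obtain ⟨r, rfl⟩ : ∃ r, n = r + 4 := ⟨n - 4, by omega⟩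
    have hχ : chi d w ≤ 0 := by
      rw [virtdim_eq] at hv
      omega
    have h5 := (nonspecial_iff d w).1 (h (r + 4) hn d w hs (threePos_of hs (kk_neg hs hχ)))
    rw [empty_iff]
    intro P hP
    rw [h5 P hP, max_eq_left hχ]
  · -- (5), second direction
    rw [nonspecial_iff]
    intro P hP
    refine of_emptyLevel (c := level d w) ?_ hn hs h3 rfl hP
    intro n' hn' d' w' hs' hk' hχ' P' hP'
    have hc1 := level_pos hn hs h3
    have hK := interK_eq d' w'
    rcases eq_or_lt_of_le hc1 with h1 | h1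
    · exact emptyLevel_one n' hn' d' w' hs' (by omega) hχ' P' hP'
    · have hv : virtdim d' w' ≤ -1 := by
        rw [virtdim_eq]
        omega
      have hKc : interK d' w' = level d w := by omega
      obtain ⟨-, h6⟩ := h4 n' hn' d' w' hs' hv
      rcases h6 with ⟨h7, h8⟩ | ⟨-, h7⟩
      · rw [hKc] at h7 h8
        exact (empty_iff d' w').1 (h (level d w) (by omega) n' hn' d' w' hs' hKc hv h7 h8) P' hP'
      · exact (empty_iff d' w').1 h7 P' hP'

end Pool.Agent.Results.MP_6e81d8_ag.FixedGenusIsFinite
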